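import Pool.Agent.Helper74.FP.Goals

/-!
# Project FP (MP_266b34_co), packet F3: normalized models
-/

set_option autoImplicit false

namespace Pool.Agent.Helper50.FP

open Pool.Agent.Helper52.Wq2 Pool.Agent.Helper74.FP

universe u

lemma adj_mul {B : Type u} [Group B] (T : Set B) (c x y : B) :
    (cayL T).Adj (x * c) (y * c) ↔ (cayL T).Adj x y := by
  unfold cayL
  rw [SimpleGraph.fromRel_adj, SimpleGraph.fromRel_adj]
  have h1 : y * c * (x * c)⁻¹ = y * x⁻¹ := by group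
  have h2 : x * c * (y * c)⁻¹ = x * y⁻¹ := by group
  rw [h1, h2]
  exact and_congr_left fun _ => (mul_left_injective c).ne_iff

/-- **F3.** -/
theorem f3 : F3Stmt.{u} := by
  intro A B _ _ S T h
  obtain ⟨φ, h1, h2, h3⟩ := h
  obtain ⟨c, hc⟩ := (h1 1).1
  refine ⟨fun a => {x | x * c ∈ φ a}, ⟨?_, ?_, ?_⟩, ?_⟩
  · intro v
    obtain ⟨⟨y, hy⟩, hcl⟩ := h1 v
    refine ⟨⟨y * c⁻¹, ?_⟩, ?_⟩
    · change y * c⁻¹ * c ∈ φ v
      rwa [inv_mul_cancel_right]
    · intro X hX hne hXc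
      have h4 := hcl {y | y * c⁻¹ ∈ X} (by
        intro y hy
        have h5 : y * c⁻¹ * c ∈ φ v := hX hy
        rwa [inv_mul_cancel_right] at h5) (by
        obtain ⟨x, hx⟩ := hne
        refine ⟨x * c, ?_⟩
        change x * c * c⁻¹ ∈ X
        rwa [mul_inv_cancel_right]) (by
        intro a ha b hb hab
        refine hXc (a * c⁻¹) ha (b * c⁻¹) ?_ ?_
        · change b * c⁻¹ * c ∈ φ v
          rwa [inv_mul_cancel_right]
        · rwa [adj_mul])
      intro x hx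
      have h5 : x * c * c⁻¹ ∈ X := h4 hx
      rwa [mul_inv_cancel_right] at h5
  · intro v w x hx hy
    exact h2 v w (x * c) hx hy
  · intro v w hvw
    obtain ⟨a, ha, b, hb, hab⟩ := h3 v w hvw
    refine ⟨a * c⁻¹, ?_, b * c⁻¹, ?_, ?_⟩
    · change a * c⁻¹ * c ∈ φ v
      rwa [inv_mul_cancel_right]
    · change b * c⁻¹ * c ∈ φ w
      rwa [inv_mul_cancel_right]
    · rwa [adj_mul]
  · change 1 * c ∈ φ 1
    rwa [one_mul]

end Pool.Agent.Helper50.FP
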