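import Pool.Agent.Helper74.FP.Goals
import Pool.Agent.Helper52.Wq2.Minor

/-!
# Project FP (MP_266b34_co), packet F5: subfamilies of the factors
-/

set_option autoImplicit false

namespace Pool.Agent.Helper50.FP

open Pool.Agent.Helper52.Wq2 Pool.Agent.Helper74.FP Monoid

universe u

/-- **F5.** -/
theorem f5 : F5Stmt.{u} := by
  classical
  intro ι κ f B _ T hf
  let φ : CoprodI (fun i => B (f i)) →* CoprodI B :=
    CoprodI.lift (fun i => (CoprodI.of : B (f i) →* CoprodI B))
  let ρ : ∀ k, B k →* CoprodI (fun i => B (f i)) := fun k =>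
    if h : ∃ i, f i = k then
      h.choose_spec ▸ (CoprodI.of (M := fun i => B (f i)) (i := h.choose))
    else 1
  let ψ : CoprodI B →* CoprodI (fun i => B (f i)) := CoprodI.lift ρ
  have hρ : ∀ i, ρ (f i) = CoprodI.of (M := fun i => B (f i)) (i := i) := by
    intro i
    have h : ∃ i', f i' = f i := ⟨i, rfl⟩
    have h1 : ρ (f i) = h.choose_spec ▸
        (CoprodI.of (M := fun i => B (f i)) (i := h.choose)) := dif_pos h
    rw [h1]
    have key : ∀ (j : ι) (hj : f j = f i),
        (hj ▸ (CoprodI.of (M := fun i => B (f i)) (i := j)) :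
          B (f i) →* CoprodI (fun i => B (f i))) = CoprodI.of (M := fun i => B (f i)) (i := i) := by
      intro j hj
      obtain rfl := hf hj
      rfl
    exact key _ _
  have hψ : ψ.comp φ = MonoidHom.id _ := by
    apply CoprodI.ext_hom
    intro i
    ext x
    change ψ (φ (CoprodI.of (M := fun i => B (f i)) (i := i) x)) =
      CoprodI.of (M := fun i => B (f i)) (i := i) x
    have h1 : φ (CoprodI.of (M := fun i => B (f i)) (i := i) x) =
        CoprodI.of (M := B) (i := f i) x := CoprodI.lift_of _ _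
    have h2 : ψ (CoprodI.of (M := B) (i := f i) x) = ρ (f i) x := CoprodI.lift_of _ _
    rw [h1, h2, hρ]
  have hinj : Function.Injective φ := by
    intro x y hxy
    have h1 := DFunLike.congr_fun hψ x
    have h2 := DFunLike.congr_fun hψ y
    change ψ (φ x) = x at h1
    change ψ (φ y) = y at h2
    rw [← h1, ← h2, hxy]
  have hS : ∀ z, z ∈ US (A := fun i => B (f i)) (fun i => T (f i)) → φ z ∈ US T := by
    rintro z ⟨i, s, hs, rfl⟩
    exact ⟨f i, s, hs, CoprodI.lift_of _ _⟩
  refine Mn.of_inj φ hinj ?_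
  intro x y hxy
  unfold cay at hxy ⊢
  rw [SimpleGraph.fromRel_adj] at hxy ⊢
  refine ⟨hinj.ne hxy.1, ?_⟩
  rcases hxy.2 with h | h
  · left
    have := hS _ h
    rwa [map_mul, map_inv] at this
  · right
    have := hS _ h
    rwa [map_mul, map_inv] at this

end Pool.Agent.Helper50.FP
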